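import Pool.Agent.Q302.LM.Fam

/-!
# MP_27a3bb_gt: the LMO invariant on one-parameter word families is constant, or injective up to
finitely many exceptions, or injective up to one reflection and finitely many exceptions
-/

set_option autoImplicit false

open Pool.Agent.Q302.LM

namespace Pool.Agent.Results.MP_27a3bb_gt.OneParameter

/-- **LMO on one-parameter word families.** Let `P(n)`, `n ∈ ℤ`, be the integral homology spheres
of a word in a Torelli group whose exponents are integer polynomials in `n`. Then the LMO invariant
is the same for all members; or outside a finite set of `n` no other member has the LMO invariant of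
`P(n)`; or there is an integer `c` such that `P(n)` and `P(c - n)` have the same LMO invariant for
all `n`, and outside a finite set of `n` no further member has the LMO invariant of `P(n)`. -/
theorem result (P : WordFamily 1) :
    (∀ n n' : ℤ, SameLMO (P.member fun _ => n) (P.member fun _ => n')) ∨
    (∃ E : Finset ℤ, ∀ n ∉ E, ∀ n' : ℤ,
      SameLMO (P.member fun _ => n) (P.member fun _ => n') → n' = n) ∨
    ∃ c : ℤ, (∀ n : ℤ, SameLMO (P.member fun _ => n) (P.member fun _ => c - n)) ∧
      ∃ E : Finset ℤ, ∀ n ∉ E, ∀ n' : ℤ,
        SameLMO (P.member fun _ => n) (P.member fun _ => n') → n' = n ∨ n' = c - n :=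
  one_parameter P

end Pool.Agent.Results.MP_27a3bb_gt.OneParameter
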