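import Pool.Agent.Q127.HS.Main

/-!
# Integral homology spheres which are not separated by all quantum `G` and `PG` invariants

For an integral homology sphere `M` the quantum `PG` invariants determine the image of the LMO invariant
under the weight system of the Lie algebra of `G` (Ohtsuki, Le, Habiro, Kuriya). So the LMO invariants of
the homology spheres in the theorem can only differ in a part on which the weight systems of all simple
Lie algebras vanish.

The manifolds are obtained by surgery with framing `1` on `K # K` and on `K # rK`, where `rK` is the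
knot `K` with the reversed orientation, and `K` is the closure of the braid
`σ_1^6 σ_2 σ_1^-1 σ_2 σ_1^-2 σ_2`. All definitions (`Braid`, `IsKnot`, `pi1`, `tauG`, `tauPG`,
`CartanDatum`, `left3`, `right3`) are in the starting library `Pool.Agent.W616.QDefs`.

Proof. The invariants do not change by reversing a summand (starting library `Pool.Agent.W616`). The
fundamental group of the surgery on `K # K` has a nontrivial homomorphism to the perfect group of order
1344 of the signed permutations of the octonion units, and the one of the surgery on `K # rK` has none.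
-/

set_option autoImplicit false

namespace Pool.Agent.Results.MP_27a3bb_gt.TorusMutants

open Pool.Agent.W616

/-- The braid word `σ_1^6 σ_2 σ_1^-1 σ_2 σ_1^-2 σ_2` on three strands. -/
def wordZ : Braid 2 :=
  [(0, true), (0, true), (0, true), (0, true), (0, true), (0, true), (1, true), (0, false),
    (1, true), (0, false), (0, false), (1, true)]

/-- `Inserted w`: the braid word `w` on three strands is obtained from `wordZ` by inserting, any number of
times and at any places, the 336-th power of a generator or of its inverse. (So in `wordZ` one may change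
all the exponents by multiples of 336.) -/
inductive Inserted : Braid 2 → Prop
  | base : Inserted wordZ
  | insert (u v : Braid 2) (g : Fin 2 × Bool) (h : Inserted (u ++ v)) :
      Inserted (u ++ List.replicate 336 g ++ v)

/-- For braid words `w₁`, `w₂` on three strands with the closures `K₁`, `K₂`, the closure of this braid
word on five strands is `K₁ # K₂` if `c = false` and `K₁ # rK₂` if `c = true` (the closure of the word
read backwards is `K₂` with the reversed orientation). -/
def sumWord (w₁ w₂ : Braid 2) (c : Bool) : Braid 4 :=
  left3 w₁ ++ right3 (if c then w₂.reverse else w₂)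

/-- The fundamental group of the connected sum, over `i`, of the 3-manifolds obtained by surgery with
framing `1` on `K₁ # K₂` (if `c i = false`) or on `K₁ # rK₂` (if `c i = true`): a free product. -/
abbrev PiOneSum (w₁ w₂ : Braid 2) {n : ℕ} (c : Fin n → Bool) : Type :=
  Monoid.CoprodI fun i => pi1 (sumWord w₁ w₂ (c i)) 2 1

/-- The quantum `G` invariant of the same connected sum (`τ_r^G(S^3) = 1`, so it is multiplicative). -/
noncomputable def tauGSum (Δ : CartanDatum) (r : ℕ) (w₁ w₂ : Braid 2) {n : ℕ}
    (c : Fin n → Bool) : ℂ := ∏ i, tauG Δ r (sumWord w₁ w₂ (c i)) 1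

/-- The quantum `PG` invariant of the same connected sum. -/
noncomputable def tauPGSum (Δ : CartanDatum) (r : ℕ) (w₁ w₂ : Braid 2) {n : ℕ}
    (c : Fin n → Bool) : ℂ := ∏ i, tauPG Δ r (sumWord w₁ w₂ (c i)) 1

theorem ins_of {w : Braid 2} (h : Inserted w) :
    Pool.Agent.Q127.HS.Ins 168 Pool.Agent.Q127.HS.wordZ w := by
  induction h with
  | base => exact Pool.Agent.Q127.HS.Ins.refl
  | insert u v g _ ih => exact Pool.Agent.Q127.HS.Ins.insert u v g ih

/-- Let `K₁`, `K₂` be the closures of two words from the infinite set `Inserted` (for instance of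
`wordZ`), and let `M`, `N` be the 3-manifolds obtained by surgery with framing `1` on `K₁ # K₂` and on
`K₁ # rK₂`.

* `K₁ # K₂` and `K₁ # rK₂` are knots, and the first homology groups of `M`, `N` are trivial: `M`, `N` are
  integral homology spheres, and so are all their connected sums.
* Two connected sums of copies of `M` and `N` with different numbers of copies of `M` have
  non-isomorphic fundamental groups. So for every `n` there are `n + 1` different connected sums of `n`
  copies of `M` or `N`; for `n = 1` these are `M` and `N`.
* For every `n` and every `r`, all the connected sums of `n` copies of `M` or `N` have the same quantum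
  `G` and `PG` invariants, for all `G`. -/
theorem result (w₁ w₂ : Braid 2) (h₁ : Inserted w₁) (h₂ : Inserted w₂) :
    (∀ c, IsKnot (sumWord w₁ w₂ c)) ∧
    (∀ c, Subsingleton (Abelianization (pi1 (sumWord w₁ w₂ c) 2 1))) ∧
    (∀ (n : ℕ) (c : Fin n → Bool), Subsingleton (Abelianization (PiOneSum w₁ w₂ c))) ∧
    (∀ (n n' : ℕ) (c : Fin n → Bool) (c' : Fin n' → Bool),
      (Finset.univ.filter fun i => c i = false).card ≠
        (Finset.univ.filter fun i => c' i = false).card →
      IsEmpty (PiOneSum w₁ w₂ c ≃* PiOneSum w₁ w₂ c')) ∧
    ∀ (Δ : CartanDatum) (r n : ℕ) (c c' : Fin n → Bool),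
      tauGSum Δ r w₁ w₂ c = tauGSum Δ r w₁ w₂ c' ∧
      tauPGSum Δ r w₁ w₂ c = tauPGSum Δ r w₁ w₂ c' :=
  ⟨Pool.Agent.Q127.HS.isKnot_all w₁ w₂ (ins_of h₁) (ins_of h₂),
    Pool.Agent.Q127.HS.ab_all w₁ w₂ (ins_of h₁) (ins_of h₂),
    fun _ c => Pool.Agent.Q127.HS.ab_coprod _ fun i =>
      Pool.Agent.Q127.HS.ab_all w₁ w₂ (ins_of h₁) (ins_of h₂) (c i),
    fun _ _ c c' hc => Pool.Agent.Q127.HS.coprod_not_iso w₁ w₂ (ins_of h₁) (ins_of h₂) c c' hc,
    fun Δ r _ c c' => ⟨Finset.prod_congr rfl fun i _ =>
        Pool.Agent.Q127.HS.tauG_all Δ r w₁ w₂ (c i) (c' i),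
      Finset.prod_congr rfl fun i _ =>
        Pool.Agent.Q127.HS.tauPG_all Δ r w₁ w₂ (c i) (c' i)⟩⟩

end Pool.Agent.Results.MP_27a3bb_gt.TorusMutants
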