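import Pool.Agent.Q302.LM.Fam

/-!
# MP_27a3bb_gt: on word families finitely many finite type invariants carry the whole LMO invariant
-/

set_option autoImplicit false

open Pool.Agent.Q302.LM

namespace Pool.Agent.Results.MP_27a3bb_gt.WordFamilies

/-- **LMO on two word families.** For two families of integral homology spheres, given by words in
Torelli groups whose exponents are integer polynomials of the parameters, there are finitely many
rational finite type invariants, which take polynomial values on both families, such that a member
of the first and a member of the second have the same LMO invariant if and only if these finitely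
many invariants agree on them. -/
theorem result {k k' : ℕ} (P : WordFamily k) (P' : WordFamily k') :
    ∃ (m r : ℕ) (v : Fin r → Sphere → ℚ) (p : Fin r → MvPolynomial (Fin k) ℚ)
      (p' : Fin r → MvPolynomial (Fin k') ℚ),
      (∀ i, FiniteType m (v i)) ∧
      (∀ i n, v i (P.member n) = MvPolynomial.eval (fun j => (n j : ℚ)) (p i)) ∧
      (∀ i n, v i (P'.member n) = MvPolynomial.eval (fun j => (n j : ℚ)) (p' i)) ∧
      ∀ n n', SameLMO (P.member n) (P'.member n') ↔
        ∀ i, v i (P.member n) = v i (P'.member n') :=
  two_families P P'

end Pool.Agent.Results.MP_27a3bb_gt.WordFamilies
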